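import Pool.Agent.Run7.h77.RO.Defs

set_option autoImplicit false

/-! Project RO (helper77), piece TRI: the graph is triangle-free. -/

namespace Run7.h894.RO

open Run7.h77.RO

variable {p B w v : ℕ} {H : SimpleGraph (Fin w)}

/-- block number, shifted -/
def bl (w : ℕ) : Kd p → ℕ → ℕ
  | .r _, x => x / w + 1
  | .a _, x => x / w + 1
  | .b _, x => x / w
  | _, _ => 0

/-- sparse edges -/
def Sp (H : SimpleGraph (Fin w)) (k : Kd p) (x : ℕ) (k' : Kd p) (y : ℕ) : Prop :=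
  bl w k x = bl w k' y ∧ Hn H (x % w) (y % w) ∧ k ≠ k'

/-- dense edges, directed to the larger block -/
def Dn (w : ℕ) (k : Kd p) (x : ℕ) (k' : Kd p) (y : ℕ) : Prop :=
  bl w k x < bl w k' y ∧ ((∃ i : Fin 3, k = .r i ∧ k' = .r (i + 1)) ∨ ∃ i : Fin p, k = .b i ∧ k' = .a i)

/-- blocked kinds -/
def Mn (k : Kd p) : Prop := (∃ i, k = .r i) ∨ (∃ i, k = .a i) ∨ ∃ i, k = .b i

theorem Hn_symm {x y : ℕ} (h : Hn H x y) : Hn H y x := by
  obtain ⟨hx, hy, h⟩ := h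
  exact ⟨hy, hx, h.symm⟩

theorem Sp_symm {k k' : Kd p} {x y : ℕ} (h : Sp H k x k' y) : Sp H k' y k x :=
  ⟨h.1.symm, Hn_symm h.2.1, h.2.2.symm⟩

theorem Dn_ne {k k' : Kd p} {x y : ℕ} (h : Dn w k x k' y) : k ≠ k' := by
  rcases h.2 with ⟨i, rfl, rfl⟩ | ⟨i, rfl, rfl⟩
  · intro h
    injection h with h
    have h3 : ∀ i : Fin 3, i ≠ i + 1 := by decide
    exact h3 i h
  · intro h
    cases h

theorem Dn_src {k k' k'' : Kd p} {x y x2 y2 : ℕ} (h : Dn w k x k' y) (h2 : Dn w k x2 k'' y2) : k' = k'' := by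
  rcases h.2 with ⟨i, rfl, rfl⟩ | ⟨i, rfl, rfl⟩ <;> rcases h2.2 with ⟨j, h3, rfl⟩ | ⟨j, h3, rfl⟩
  · injection h3 with h3
    rw [h3]
  · cases h3
  · cases h3
  · injection h3 with h3
    rw [h3]

theorem Dn_tgt {k k' k'' : Kd p} {x y x2 y2 : ℕ} (h : Dn w k' y k x) (h2 : Dn w k'' y2 k x2) : k' = k'' := by
  rcases h.2 with ⟨i, rfl, rfl⟩ | ⟨i, rfl, rfl⟩ <;> rcases h2.2 with ⟨j, rfl, h3⟩ | ⟨j, rfl, h3⟩
  · injection h3 with h3
    rw [add_right_cancel h3]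
  · cases h3
  · cases h3
  · injection h3 with h3
    rw [h3]

theorem E_main {k k' : Kd p} {x y : ℕ} (hk : Mn k) (hk' : Mn k') (h : E B w v H k x k' y) :
    Sp H k x k' y ∨ Dn w k x k' y ∨ Dn w k' y k x := by
  rcases hk with ⟨i, rfl⟩ | ⟨i, rfl⟩ | ⟨i, rfl⟩ <;> rcases hk' with ⟨j, rfl⟩ | ⟨j, rfl⟩ | ⟨j, rfl⟩
  · rcases h with ⟨h1, h2, -, -⟩ | ⟨h1, h2, h3⟩
    · right; left
      exact ⟨by simpa [bl] using h2, Or.inl ⟨i, rfl, by rw [h1]⟩⟩
    · left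
      exact ⟨by simp [bl, h2], h3, fun e => h1 (by injection e)⟩
  · left
    exact ⟨by simp [bl, h.1], h.2, fun e => by cases e⟩
  · left
    exact ⟨by simp [bl, h.1], h.2, fun e => by cases e⟩
  · exact h.elim
  · left
    exact ⟨by simp [bl, h.2.1], h.2.2.2, fun e => h.1 (by injection e)⟩
  · rcases h with ⟨h1, h2⟩ | ⟨h1, h2, h3⟩
    · right; right
      subst h1
      refine ⟨?_, Or.inr ⟨i, rfl, rfl⟩⟩
      simp only [bl]
      exact Nat.lt_succ_of_le (Nat.div_le_div_right h2)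
    · left
      exact ⟨by simp [bl, h2], h3, fun e => by cases e⟩
  · exact h.elim
  · exact h.elim
  · left
    exact ⟨by simp [bl, h.2.1], h.2.2.2, fun e => h.1 (by injection e)⟩

theorem A2_main {k k' : Kd p} {x y : ℕ} (hk : Mn k) (hk' : Mn k') (h : A2 B w v H k x k' y) :
    Sp H k x k' y ∨ Dn w k x k' y ∨ Dn w k' y k x := by
  rcases h with h | h
  · exact E_main hk hk' h
  · rcases E_main hk' hk h with h1 | h1 | h1
    · exact Or.inl (Sp_symm h1)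
    · exact Or.inr (Or.inr h1)
    · exact Or.inr (Or.inl h1)

theorem tri_main (hH : H.CliqueFree 3) {k1 k2 k3 : Kd p} {x1 x2 x3 : ℕ}
    (h12 : Sp H k1 x1 k2 x2 ∨ Dn w k1 x1 k2 x2 ∨ Dn w k2 x2 k1 x1)
    (h13 : Sp H k1 x1 k3 x3 ∨ Dn w k1 x1 k3 x3 ∨ Dn w k3 x3 k1 x1)
    (h23 : Sp H k2 x2 k3 x3 ∨ Dn w k2 x2 k3 x3 ∨ Dn w k3 x3 k2 x2) : False := by
  have ne12 : k1 ≠ k2 := by
    rcases h12 with h | h | h
    · exact h.2.2
    · exact Dn_ne h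
    · exact (Dn_ne h).symm
  have ne13 : k1 ≠ k3 := by
    rcases h13 with h | h | h
    · exact h.2.2
    · exact Dn_ne h
    · exact (Dn_ne h).symm
  have ne23 : k2 ≠ k3 := by
    rcases h23 with h | h | h
    · exact h.2.2
    · exact Dn_ne h
    · exact (Dn_ne h).symm
  rcases h12 with h1 | h1 | h1 <;> rcases h13 with h2 | h2 | h2 <;> rcases h23 with h3 | h3 | h3
  · obtain ⟨a1, a2, a3⟩ := h1.2.1
    obtain ⟨b1, b2, b3⟩ := h2.2.1
    obtain ⟨c1, c2, c3⟩ := h3.2.1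
    apply hH {⟨x1 % w, a1⟩, ⟨x2 % w, a2⟩, ⟨x3 % w, b2⟩}
    rw [SimpleGraph.is3Clique_triple_iff]
    exact ⟨a3, b3, c3⟩
  all_goals first
    | (have e1 := h1.1; have e2 := h2.1; have e3 := h3.1; omega)
    | exact ne12 (Dn_src h2 h3)
    | exact ne12 (Dn_tgt h2 h3)
    | exact ne13 (Dn_src h1 h3)
    | exact ne13 (Dn_tgt h1 h3)
    | exact ne23 (Dn_src h1 h2)
    | exact ne23 (Dn_tgt h1 h2)

theorem nb_u0 {k : Kd p} {x y : ℕ} (h : A2 B w v H .u0 x k y) : k = .r 0 ∨ k = .u1 := by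
  cases k <;> simp_all [A2, E]

theorem nb_u1 {k : Kd p} {x y : ℕ} (h : A2 B w v H .u1 x k y) :
    k = .r 1 ∨ k = .u0 ∨ k = .u2 ∨ k = .l1 ∨ ((∃ i, k = .a i) ∧ 2 * B * w ≤ y) := by
  cases k <;> simp_all [A2, E]

theorem nb_u2 {k : Kd p} {x y : ℕ} (h : A2 B w v H .u2 x k y) :
    k = .r 2 ∨ k = .u1 ∨ k = .l2 ∨ ((∃ i, k = .b i) ∧ y < w) := by
  cases k <;> simp_all [A2, E]

theorem nb_l1 {k : Kd p} {x y : ℕ} (h : A2 B w v H .l1 x k y) : k = .u1 := by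
  cases k <;> simp_all [A2, E]

theorem nb_l2 {k : Kd p} {x y : ℕ} (h : A2 B w v H .l2 x k y) : k = .u2 := by
  cases k <;> simp_all [A2, E]

theorem ps_lt (x : V p B w v) : ps x < sz B w v (kd x) := by
  rcases x with ⟨i, x⟩ | ⟨i, x⟩ | ⟨i, x⟩ | x | x | x | x | x <;> simp only [ps, kd, sz] <;> exact x.2

theorem tri_out (hw : 0 < w) {k1 k2 k3 : Kd p} {x1 x2 x3 : ℕ} (hk : ¬ Mn k1)
    (l2 : x2 < sz B w v k2) (l3 : x3 < sz B w v k3)
    (h12 : A2 B w v H k1 x1 k2 x2) (h13 : A2 B w v H k1 x1 k3 x3) (h23 : A2 B w v H k2 x2 k3 x3) :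
    False := by
  have hdiv : ∀ y : ℕ, 2 * B * w ≤ y → 2 * B ≤ y / w := fun y hy => by
    rw [Nat.le_div_iff_mul_le hw]; exact hy
  have hdiv2 : ∀ y : ℕ, y < 2 * B * w → y / w < 2 * B := fun y hy => by
    rw [Nat.div_lt_iff_lt_mul hw]; exact hy
  have hdiv3 : ∀ y : ℕ, y < w → y / w = 0 := fun y hy => Nat.div_eq_of_lt hy
  cases k1 with
  | r i => exact hk (Or.inl ⟨i, rfl⟩)
  | a i => exact hk (Or.inr (Or.inl ⟨i, rfl⟩))
  | b i => exact hk (Or.inr (Or.inr ⟨i, rfl⟩))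
  | u0 =>
    rcases nb_u0 h12 with rfl | rfl <;> rcases nb_u0 h13 with rfl | rfl <;> simp [A2, E] at h23
  | u1 =>
    rcases nb_u1 h12 with rfl | rfl | rfl | rfl | ⟨⟨i, rfl⟩, h2⟩ <;>
      rcases nb_u1 h13 with rfl | rfl | rfl | rfl | ⟨⟨j, rfl⟩, h3⟩ <;> simp [A2, E] at h23
    · have := hdiv _ h3
      have := hdiv2 x2 l2
      omega
    · have := hdiv _ h2
      have := hdiv2 x3 l3
      omega
    · have := hdiv _ h2
      have := hdiv _ h3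
      omega
  | u2 =>
    rcases nb_u2 h12 with rfl | rfl | rfl | ⟨⟨i, rfl⟩, h2⟩ <;>
      rcases nb_u2 h13 with rfl | rfl | rfl | ⟨⟨j, rfl⟩, h3⟩ <;> simp [A2, E] at h23
    · have e3 := hdiv3 _ h3
      rw [e3] at h23
      simp at h23
    · have e2 := hdiv3 _ h2
      rw [e2] at h23
      simp at h23
    · have e2 := hdiv3 _ h2
      have e3 := hdiv3 _ h3
      omega
  | l1 =>
    have e2 := nb_l1 h12
    have e3 := nb_l1 h13
    subst e2 e3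
    simp [A2, E] at h23
  | l2 =>
    have e2 := nb_l2 h12
    have e3 := nb_l2 h13
    subst e2 e3
    simp [A2, E] at h23

theorem A2_symm {k k' : Kd p} {x y : ℕ} (h : A2 B w v H k x k' y) : A2 B w v H k' y k x := Or.symm h

theorem t_TRI : S_TRI := by
  intro p B w v H hw hH t ht
  rw [SimpleGraph.is3Clique_iff] at ht
  obtain ⟨x, y, z, hxy, hxz, hyz, -⟩ := ht
  have h12 : A2 B w v H (kd x) (ps x) (kd y) (ps y) := hxy
  have h13 : A2 B w v H (kd x) (ps x) (kd z) (ps z) := hxz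
  have h23 : A2 B w v H (kd y) (ps y) (kd z) (ps z) := hyz
  by_cases m1 : Mn (kd x)
  · by_cases m2 : Mn (kd y)
    · by_cases m3 : Mn (kd z)
      · exact tri_main hH (A2_main m1 m2 h12) (A2_main m1 m3 h13) (A2_main m2 m3 h23)
      · exact tri_out hw m3 (ps_lt x) (ps_lt y) (A2_symm h13) (A2_symm h23) h12
    · exact tri_out hw m2 (ps_lt x) (ps_lt z) (A2_symm h12) h23 h13
  · exact tri_out hw m1 (ps_lt y) (ps_lt z) h12 h13 h23

end Run7.h894.RO
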